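import Pool.Agent.Lib.MP_144d21_co.XU.Iface

/-!
# XU, module PERT: general position near a given placement.
-/

set_option autoImplicit false

namespace Pool.Agent.Xu.H31

open Finset Polynomial Filter Topology

/-- the moment curve -/
def mc (a : ℝ) : Fin 3 → ℝ := ![a, a ^ 2, a ^ 3]

/-- the matrix of three differences -/
def dm (q : Fin 4 → Fin 3 → ℝ) : Matrix (Fin 3) (Fin 3) ℝ :=
  Matrix.of ![q 1 - q 0, q 2 - q 0, q 3 - q 0]

theorem dm_mc (a b c d : ℝ) : (dm ![mc a, mc b, mc c, mc d]).det =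
    (b - a) * (c - a) * (d - a) * (c - b) * (d - b) * (d - c) := by
  rw [Matrix.det_fin_three]
  simp [dm, mc]
  ring

theorem dm_add (q q' : Fin 4 → Fin 3 → ℝ) (t : ℝ) :
    dm (fun i => q i + t • q' i) = t • dm q' + dm q := by
  ext i j
  fin_cases i <;> simp [dm] <;> ring

theorem finite_det_zero (A B : Matrix (Fin 3) (Fin 3) ℝ) (hA : A.det ≠ 0) :
    {t : ℝ | (t • A + B).det = 0}.Finite := by
  have h0 : ((X : ℝ[X]) • A.map C + B.map C).det ≠ 0 := by
    intro h
    have h1 := Polynomial.coeff_det_X_add_C_card A B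
    rw [h, coeff_zero] at h1
    exact hA h1.symm
  refine Set.Finite.subset (((X : ℝ[X]) • A.map C + B.map C).det.roots.toFinset.finite_toSet) ?_
  intro t ht
  rw [Finset.mem_coe, Multiset.mem_toFinset, mem_roots h0, IsRoot.def]
  have h2 := RingHom.map_det (evalRingHom t) ((X : ℝ[X]) • A.map C + B.map C)
  rw [coe_evalRingHom] at h2
  rw [h2]
  have h3 : (evalRingHom t).mapMatrix ((X : ℝ[X]) • A.map C + B.map C) = t • A + B := by
    ext i j
    simp
    ring
  rw [h3]
  exact ht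

theorem four_of_det {q : Fin 4 → Fin 3 → ℝ} (h : (dm q).det ≠ 0) (x y z : ℝ)
    (h0 : x • (q 1 - q 0) + y • (q 2 - q 0) + z • (q 3 - q 0) = 0) : x = 0 ∧ y = 0 ∧ z = 0 := by
  have h1 : Matrix.vecMul ![x, y, z] (dm q) = 0 := by
    refine Eq.trans ?_ h0
    ext j
    simp [Matrix.vecMul, dotProduct, Fin.sum_univ_three, dm]
  have h2 := Matrix.eq_zero_of_vecMul_eq_zero h h1
  refine ⟨?_, ?_, ?_⟩
  · have := congrFun h2 0; simpa using this
  · have := congrFun h2 1; simpa using this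
  · have := congrFun h2 2; simpa using this

/-- for all but finitely many `t` the placement `p0 + t mc` satisfies the condition on 4 points -/
theorem finite_bad (W : Type) [Fintype W] (P0 : W → Fin 3 → ℝ) (al : W → ℝ)
    (hal : Function.Injective al) :
    {t : ℝ | ∃ a b c d : W, (a ≠ b ∧ a ≠ c ∧ a ≠ d ∧ b ≠ c ∧ b ≠ d ∧ c ≠ d) ∧
      (dm (fun i => (![P0 a, P0 b, P0 c, P0 d] : Fin 4 → Fin 3 → ℝ) i + t •
        (![mc (al a), mc (al b), mc (al c), mc (al d)] : Fin 4 → Fin 3 → ℝ) i)).det = 0}.Finite := by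
  have h : ∀ a b c d : W, {t : ℝ | (a ≠ b ∧ a ≠ c ∧ a ≠ d ∧ b ≠ c ∧ b ≠ d ∧ c ≠ d) ∧
      (dm (fun i => (![P0 a, P0 b, P0 c, P0 d] : Fin 4 → Fin 3 → ℝ) i + t •
        (![mc (al a), mc (al b), mc (al c), mc (al d)] : Fin 4 → Fin 3 → ℝ) i)).det = 0}.Finite := by
    intro a b c d
    by_cases hd : a ≠ b ∧ a ≠ c ∧ a ≠ d ∧ b ≠ c ∧ b ≠ d ∧ c ≠ d
    · have hA : (dm ![mc (al a), mc (al b), mc (al c), mc (al d)]).det ≠ 0 := by
        rw [dm_mc]
        obtain ⟨h1, h2, h3, h4, h5, h6⟩ := hd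
        have e : ∀ {x y : W}, x ≠ y → al y - al x ≠ 0 := fun hxy h0 =>
          hxy (hal (sub_eq_zero.1 h0).symm)
        exact mul_ne_zero (mul_ne_zero (mul_ne_zero (mul_ne_zero (mul_ne_zero (e h1) (e h2))
          (e h3)) (e h4)) (e h5)) (e h6)
      refine (finite_det_zero _ (dm ![P0 a, P0 b, P0 c, P0 d]) hA).subset ?_
      rintro t ⟨_, ht⟩
      rw [dm_add] at ht
      exact ht
    · refine Set.Finite.subset Set.finite_empty ?_
      rintro t ⟨h1, _⟩
      exact hd h1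
  refine (Set.finite_iUnion fun a => Set.finite_iUnion fun b => Set.finite_iUnion fun c =>
    Set.finite_iUnion fun d => h a b c d).subset ?_
  rintro t ⟨a, b, c, d, h1, h2⟩
  simp only [Set.mem_iUnion]
  exact ⟨a, b, c, d, h1, h2⟩

/-- general position of `p0 + t mc` for all but finitely many `t` -/
theorem finite_not_gp (V : Type) [Fintype V] (p0 : V → Fin 3 → ℝ) :
    ∃ q : V → Fin 3 → ℝ, {t : ℝ | ¬ GP (fun v => p0 v + t • q v)}.Finite := by
  classical
  set al : V ⊕ Fin 3 → ℝ := fun w => ((Fintype.equivFin (V ⊕ Fin 3) w : ℕ) : ℝ) with hal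
  have hinj : Function.Injective al := by
    intro x y h
    have h1 : (Fintype.equivFin (V ⊕ Fin 3) x : ℕ) = (Fintype.equivFin (V ⊕ Fin 3) y : ℕ) :=
      Nat.cast_injective (R := ℝ) h
    exact (Fintype.equivFin _).injective (Fin.ext h1)
  refine ⟨fun v => mc (al (Sum.inl v)),
    (finite_bad (V ⊕ Fin 3) (Sum.elim p0 fun _ => 0) al hinj).subset ?_⟩
  intro t ht
  by_contra hcon
  apply ht
  -- the four point condition on the extended type
  set P : V ⊕ Fin 3 → Fin 3 → ℝ := fun w => Sum.elim p0 (fun _ => 0) w + t • mc (al w) with hP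
  have key : ∀ a b c d : V ⊕ Fin 3, a ≠ b → a ≠ c → a ≠ d → b ≠ c → b ≠ d → c ≠ d →
      ∀ x y z : ℝ, x • (P b - P a) + y • (P c - P a) + z • (P d - P a) = 0 →
      x = 0 ∧ y = 0 ∧ z = 0 := by
    intro a b c d h1 h2 h3 h4 h5 h6 x y z h0
    have hdet : (dm (fun i => (![Sum.elim p0 (fun _ => 0) a, Sum.elim p0 (fun _ => 0) b,
        Sum.elim p0 (fun _ => 0) c, Sum.elim p0 (fun _ => 0) d] : Fin 4 → Fin 3 → ℝ) i + t •
        (![mc (al a), mc (al b), mc (al c), mc (al d)] : Fin 4 → Fin 3 → ℝ) i)).det ≠ 0 := by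
      intro h
      exact hcon ⟨a, b, c, d, ⟨h1, h2, h3, h4, h5, h6⟩, h⟩
    refine four_of_det hdet x y z (Eq.trans ?_ h0)
    simp [hP]
  have e : ∀ {a b : V}, a ≠ b → (Sum.inl a : V ⊕ Fin 3) ≠ Sum.inl b := fun h h' =>
    h (Sum.inl_injective h')
  have e' : ∀ {a : V} {i : Fin 3}, (Sum.inl a : V ⊕ Fin 3) ≠ Sum.inr i := fun h => by
    cases h
  have e'' : ∀ {i j : Fin 3}, i ≠ j → (Sum.inr i : V ⊕ Fin 3) ≠ Sum.inr j := fun h h' =>
    h (Sum.inr_injective h')
  refine ⟨?_, ?_, ?_⟩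
  · intro a b hab h
    have h1 := key (Sum.inl a) (Sum.inl b) (Sum.inr 0) (Sum.inr 1) (e hab) e' e' e' e'
      (e'' (by decide)) 1 0 0 ?_
    · exact one_ne_zero h1.1
    · have h2 : P (Sum.inl b) - P (Sum.inl a) = 0 := by
        rw [sub_eq_zero]
        exact h.symm
      rw [h2]
      simp
  · intro a b c hab hac hbc x y h
    have h1 := key (Sum.inl a) (Sum.inl b) (Sum.inl c) (Sum.inr 1) (e hab) (e hac) e' (e hbc) e'
      e' x y 0 ?_
    · exact ⟨h1.1, h1.2.1⟩
    · rw [zero_smul, add_zero]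
      exact h
  · intro a b c d hab hac had hbc hbd hcd x y z h
    exact key (Sum.inl a) (Sum.inl b) (Sum.inl c) (Sum.inl d) (e hab) (e hac) (e had) (e hbc)
      (e hbd) (e hcd) x y z h

/-- the rank is lower semicontinuous -/
theorem rk_semi (V : Type) [Fintype V] [DecidableEq V] (G : SimpleGraph V) (S : Finset V)
    (p0 q : V → Fin 3 → ℝ) :
    ∀ᶠ t : ℝ in 𝓝 0, rk p0 G S ≤ rk (fun v => p0 v + t • q v) G S := by
  classical
  -- a basis of the row space among the rows
  obtain ⟨b, hb, hspan, hli⟩ := exists_linearIndependent ℝ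
    {x | ∃ u ∈ S, ∃ v ∈ S, G.Adj u v ∧ x = row p0 u v}
  have hfin : b.Finite := hli.setFinite
  have : Fintype b := hfin.fintype
  have hcard : Fintype.card b = rk p0 G S := by
    unfold rk rs
    rw [← hspan, ← finrank_span_eq_card hli, Subtype.range_coe]
  choose f hf using fun x : b => hb x.2
  -- f x : V, in S; the second end
  have hex : ∀ x : b, ∃ v ∈ S, G.Adj (f x) v ∧ (x : V → Fin 3 → ℝ) = row p0 (f x) v :=
    fun x => (hf x).2
  choose g hg using hex
  set F : ℝ → b → V → Fin 3 → ℝ := fun t x => row (fun v => p0 v + t • q v) (f x) (g x) with hF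
  have hF0 : F 0 = ((↑) : b → V → Fin 3 → ℝ) := by
    funext x
    rw [(hg x).2.2]
    simp [hF]
  have hcont : Continuous F := by
    refine continuous_pi fun x => ?_
    have h1 : ∀ u v : V, Continuous fun t : ℝ => (p0 u + t • q u) - (p0 v + t • q v) := by
      intro u v
      fun_prop
    simp only [hF, row]
    refine Continuous.add ?_ ?_
    · refine continuous_pi fun w => ?_
      by_cases hw : w = f x
      · subst hw
        simp only [Pi.single_eq_same]
        exact h1 _ _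
      · simp only [Pi.single_eq_of_ne hw]
        exact continuous_const
    · refine continuous_pi fun w => ?_
      by_cases hw : w = g x
      · rw [hw]
        simp only [Pi.single_eq_same]
        exact h1 _ _
      · simp only [Pi.single_eq_of_ne hw]
        exact continuous_const
  have hopen : IsOpen {φ : b → V → Fin 3 → ℝ | LinearIndependent ℝ φ} :=
    isOpen_setOfPred_linearIndependent
  have hmem : ∀ᶠ t : ℝ in 𝓝 0, LinearIndependent ℝ (F t) := by
    have := hcont.continuousAt.preimage_mem_nhds (hopen.mem_nhds (x := F 0) (by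
      show LinearIndependent ℝ (F 0)
      rw [hF0]
      exact hli))
    exact this
  filter_upwards [hmem] with t ht
  rw [← hcard, ← finrank_span_eq_card ht]
  unfold rk rs
  apply Submodule.finrank_mono
  rw [Submodule.span_le]
  rintro _ ⟨x, rfl⟩
  exact Submodule.subset_span ⟨f x, (hf x).1, g x, (hg x).1, (hg x).2.1, rfl⟩

theorem pert : PertS := by
  intro V _ _ G S p0
  obtain ⟨q, hq⟩ := finite_not_gp V p0
  have h1 : ∀ᶠ t : ℝ in 𝓝[≠] 0, GP (fun v => p0 v + t • q v) := by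
    have hcl : IsClosed ({t : ℝ | ¬ GP (fun v => p0 v + t • q v)} \ {0}) :=
      (hq.subset Set.sdiff_subset).isClosed
    have hmem : ({t : ℝ | ¬ GP (fun v => p0 v + t • q v)} \ {0})ᶜ ∈ 𝓝 (0 : ℝ) :=
      hcl.isOpen_compl.mem_nhds (by simp)
    have h2 : ∀ᶠ t : ℝ in 𝓝[≠] 0, t ∈ ({t : ℝ | ¬ GP (fun v => p0 v + t • q v)} \ {0})ᶜ :=
      mem_nhdsWithin_of_mem_nhds hmem
    filter_upwards [h2, self_mem_nhdsWithin] with t ht ht0
    by_contra hcon
    exact ht ⟨hcon, ht0⟩
  have h2 : ∀ᶠ t : ℝ in 𝓝[≠] 0, rk p0 G S ≤ rk (fun v => p0 v + t • q v) G S :=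
    (rk_semi V G S p0 q).filter_mono nhdsWithin_le_nhds
  obtain ⟨t, ht1, ht2⟩ := (h1.and h2).exists
  exact ⟨_, ht1, ht2⟩

end Pool.Agent.Xu.H31
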