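import Pool.Agent.Lib.MP_144d21_co.XU.Iface

/-!
# XU, module ST5: five neighbours.
-/

set_option autoImplicit false

namespace Pool.Agent.Xu.H31

open Finset

theorem others (i j : Fin 5) (hij : i ≠ j) : ∃ c d e : Fin 5, i ≠ c ∧ i ≠ d ∧ i ≠ e ∧ j ≠ c ∧
    j ≠ d ∧ j ≠ e ∧ c ≠ d ∧ c ≠ e ∧ d ≠ e := by
  have h1 : ((univ : Finset (Fin 5)) \ {i, j}).card = 3 := by
    rw [card_sdiff_of_subset (subset_univ _), card_pair hij]
    rfl
  obtain ⟨c, d, e, hcd, hce, hde, h⟩ := Finset.card_eq_three.1 h1
  have hm : ∀ x : Fin 5, x ∈ ({c, d, e} : Finset (Fin 5)) → i ≠ x ∧ j ≠ x := by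
    intro x hx
    rw [← h, mem_sdiff] at hx
    exact ⟨fun h' => hx.2 (by simp [h']), fun h' => hx.2 (by simp [h'])⟩
  have hc := hm c (by simp)
  have hd := hm d (by simp)
  have he := hm e (by simp)
  exact ⟨c, d, e, hc.1, hd.1, he.1, hc.2, hd.2, he.2, hcd, hce, hde⟩

theorem st5 (hK : K5depS) (hL : Lin5S) : St5S := by
  intro V _ _ p hp U v w hw hwv hfin
  by_contra hcon
  push Not at hcon
  -- hcon : no star has rank 2 modulo U
  set R : Fin 5 → Fin 5 → V → Fin 3 → ℝ := fun i j => row p (w i) (w j) with hR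
  set x : Fin 5 → Fin 5 → (V → Fin 3 → ℝ) ⧸ U := fun i j => U.mkQ (R i j) with hx
  have hker : ∀ y, U.mkQ y = 0 ↔ y ∈ U := fun y => by
    rw [Submodule.mkQ_apply, Submodule.Quotient.mk_eq_zero]
  -- membership in the quotient
  have hspan1 : ∀ y z : V → Fin 3 → ℝ, y ∈ U ⊔ Submodule.span ℝ ({z} : Set _) →
      U.mkQ y ∈ Submodule.span ℝ ({U.mkQ z} : Set ((V → Fin 3 → ℝ) ⧸ U)) := by
    intro y z hy
    obtain ⟨a, ha, b, hb, rfl⟩ := Submodule.mem_sup.1 hy
    obtain ⟨c, rfl⟩ := Submodule.mem_span_singleton.1 hb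
    rw [map_add, (hker a).2 ha, zero_add, map_smul]
    exact Submodule.smul_mem _ _ (Submodule.mem_span_singleton_self _)
  have hspan2 : ∀ y z : V → Fin 3 → ℝ, U.mkQ y ∈ Submodule.span ℝ
      ({U.mkQ z} : Set ((V → Fin 3 → ℝ) ⧸ U)) → y ∈ U ⊔ Submodule.span ℝ ({z} : Set _) := by
    intro y z hy
    obtain ⟨c, hc⟩ := Submodule.mem_span_singleton.1 hy
    have h1 : y - c • z ∈ U := by
      rw [← hker, map_sub, map_smul, hc, sub_self]
    have h2 : y = (y - c • z) + c • z := by abel
    rw [h2]
    exact Submodule.add_mem_sup h1 (Submodule.smul_mem _ _ (Submodule.mem_span_singleton_self _))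
  have hA : ∀ i j, x i j = x j i := by
    intro i j
    simp only [hx, hR]
    rw [row_comm]
  have hB : ∀ i j k, i ≠ j → i ≠ k → x i j ≠ 0 →
      x i k ∈ Submodule.span ℝ ({x i j} : Set ((V → Fin 3 → ℝ) ⧸ U)) := by
    intro i j k hij hik hne
    have hnot : R i j ∉ U := fun h => hne ((hker _).2 h)
    have hsub : U ⊔ Submodule.span ℝ ({R i j} : Set _) ≤
        U ⊔ Submodule.span ℝ (Set.range fun j => row p (w i) (w j)) := by
      refine sup_le le_sup_left (le_trans (Submodule.span_mono ?_) le_sup_right)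
      rw [Set.singleton_subset_iff]
      exact ⟨j, rfl⟩
    have hlt : U < U ⊔ Submodule.span ℝ ({R i j} : Set _) := by
      refine lt_of_le_of_ne le_sup_left fun h => hnot ?_
      rw [h]
      exact Submodule.mem_sup_right (Submodule.mem_span_singleton_self _)
    have h1 := Submodule.finrank_lt_finrank_of_lt hlt
    have h2 := hcon i
    have heq := Submodule.eq_of_le_of_finrank_le hsub (by omega)
    apply hspan1
    show R i k ∈ _
    rw [heq]
    exact Submodule.mem_sup_right (Submodule.subset_span ⟨k, rfl⟩)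
  have hC : ∀ i j, i ≠ j → x i j ∈ Submodule.span ℝ {y | ∃ k l, k ≠ l ∧ ¬ (k = i ∧ l = j) ∧
      ¬ (k = j ∧ l = i) ∧ y = x k l} := by
    intro i j hij
    obtain ⟨c, d, e, hic, hid, hie, hjc, hjd, hje, hcd, hce, hde⟩ := others i j hij
    have hn : ∀ {a b : Fin 5}, a ≠ b → w a ≠ w b := fun h h' => h (hw h')
    have h := hK V p hp (w i) (w j) (w c) (w d) (w e) (hn hij) (hn hic) (hn hid) (hn hie)
      (hn hjc) (hn hjd) (hn hje) (hn hcd) (hn hce) (hn hde)
    have h1 : U.mkQ (R i j) ∈ (Submodule.span ℝ ({row p (w i) (w c), row p (w i) (w d),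
        row p (w i) (w e), row p (w j) (w c), row p (w j) (w d), row p (w j) (w e),
        row p (w c) (w d), row p (w c) (w e), row p (w d) (w e)} : Set _)).map U.mkQ :=
      Submodule.mem_map_of_mem h
    rw [Submodule.map_span] at h1
    refine Submodule.span_mono ?_ h1
    rintro _ ⟨y, hy, rfl⟩
    simp only [Set.mem_insert_iff, Set.mem_singleton_iff] at hy
    rcases hy with rfl | rfl | rfl | rfl | rfl | rfl | rfl | rfl | rfl
    · exact ⟨i, c, hic, fun h => hjc h.2.symm, fun h => hic h.2.symm, rfl⟩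
    · exact ⟨i, d, hid, fun h => hjd h.2.symm, fun h => hid h.2.symm, rfl⟩
    · exact ⟨i, e, hie, fun h => hje h.2.symm, fun h => hie h.2.symm, rfl⟩
    · exact ⟨j, c, hjc, fun h => hij h.1.symm, fun h => hic h.2.symm, rfl⟩
    · exact ⟨j, d, hjd, fun h => hij h.1.symm, fun h => hid h.2.symm, rfl⟩
    · exact ⟨j, e, hje, fun h => hij h.1.symm, fun h => hie h.2.symm, rfl⟩
    · exact ⟨c, d, hcd, fun h => hic h.1.symm, fun h => hjc h.1.symm, rfl⟩
    · exact ⟨c, e, hce, fun h => hic h.1.symm, fun h => hjc h.1.symm, rfl⟩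
    · exact ⟨d, e, hde, fun h => hid h.1.symm, fun h => hjd h.1.symm, rfl⟩
  obtain ⟨u, hu⟩ := hL _ x hA hB hC
  · -- the end
    obtain ⟨u', rfl⟩ := U.mkQ_surjective u
    set T : Submodule ℝ (V → Fin 3 → ℝ) := U ⊔ Submodule.span ℝ ({u'} : Set _) with hT
    have hRT : ∀ i j, R i j ∈ T := by
      intro i j
      by_cases hij : i = j
      · subst hij
        have : R i i = 0 := by
          simp only [hR]
          exact row_self p _
        rw [this]
        exact Submodule.zero_mem _
      · exact hspan2 _ _ (hu i j hij)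
    set Q : Submodule ℝ (V → Fin 3 → ℝ) := T ⊔ Submodule.span ℝ
      (({row p v (w 0), row p v (w 1), row p v (w 2)} : Finset (V → Fin 3 → ℝ)) :
        Set (V → Fin 3 → ℝ)) with hQ
    have hv : ∀ i : Fin 3, row p v (w (Fin.castLE (by norm_num) i)) ∈ Q := by
      intro i
      apply Submodule.mem_sup_right
      apply Submodule.subset_span
      fin_cases i <;> simp
    have hTQ : T ≤ Q := le_sup_left
    have hmem : ∀ i : Fin 5, row p v (w i) ∈ Q := by
      have h0 : row p v (w 0) ∈ Q := hv 0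
      have h1 : row p v (w 1) ∈ Q := hv 1
      have h2 : row p v (w 2) ∈ Q := hv 2
      have big : ∀ i : Fin 5, i ≠ 0 → i ≠ 1 → i ≠ 2 → row p v (w i) ∈ Q := by
        intro i hi0 hi1 hi2
        have h := hK V p hp v (w i) (w 0) (w 1) (w 2) (hwv i).symm (hwv 0).symm (hwv 1).symm
          (hwv 2).symm (fun h => hi0 (hw h)) (fun h => hi1 (hw h)) (fun h => hi2 (hw h))
          (fun h => by simpa using hw h) (fun h => by simpa using hw h)
          (fun h => by simpa using hw h)
        refine (Submodule.span_le.2 ?_) h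
        intro y hy
        simp only [Set.mem_insert_iff, Set.mem_singleton_iff] at hy
        rcases hy with rfl | rfl | rfl | rfl | rfl | rfl | rfl | rfl | rfl
        · exact h0
        · exact h1
        · exact h2
        · exact hTQ (hRT i 0)
        · exact hTQ (hRT i 1)
        · exact hTQ (hRT i 2)
        · exact hTQ (hRT 0 1)
        · exact hTQ (hRT 0 2)
        · exact hTQ (hRT 1 2)
      intro i
      by_cases hi0 : i = 0
      · rw [hi0]; exact h0
      by_cases hi1 : i = 1
      · rw [hi1]; exact h1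
      by_cases hi2 : i = 2
      · rw [hi2]; exact h2
      exact big i hi0 hi1 hi2
    have hle : U ⊔ Submodule.span ℝ (Set.range fun i => row p v (w i)) ≤ Q := by
      refine sup_le (le_trans le_sup_left hTQ) (Submodule.span_le.2 ?_)
      rintro _ ⟨i, rfl⟩
      exact hmem i
    have hf1 := Submodule.finrank_mono hle
    have hf2 : Module.finrank ℝ Q ≤ Module.finrank ℝ T + 3 := by
      refine (Submodule.finrank_add_le_finrank_add_finrank _ _).trans ?_
      have h3 := finrank_span_finset_le_card (R := ℝ)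
        ({row p v (w 0), row p v (w 1), row p v (w 2)} : Finset (V → Fin 3 → ℝ))
      have h4 := Finset.card_le_three (a := row p v (w 0)) (b := row p v (w 1))
        (c := row p v (w 2))
      have h5 : Module.finrank ℝ (Submodule.span ℝ
        (({row p v (w 0), row p v (w 1), row p v (w 2)} : Finset (V → Fin 3 → ℝ)) :
        Set (V → Fin 3 → ℝ))) ≤ 3 := h3.trans h4
      omega
    have hf3 : Module.finrank ℝ T ≤ Module.finrank ℝ U + 1 := by
      refine (Submodule.finrank_add_le_finrank_add_finrank _ _).trans ?_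
      have h5 := finrank_span_le_card (R := ℝ) ({u'} : Set (V → Fin 3 → ℝ))
      rw [Set.toFinset_singleton, Finset.card_singleton] at h5
      omega
    omega

end Pool.Agent.Xu.H31
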